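import Mathlib

set_option autoImplicit false
open Pointwise

namespace Pool.Agent.Helper9_Protasov

/-- The ambient group: free group on countably many generators. -/
abbrev G : Type := FreeGroup ℕ

/-- Permutation of `G × Bool` by which the generator `j` acts: left multiplication on the first
coordinate, flipping the second coordinate exactly when the edge `(of k)⁻¹ → 1` is crossed. -/
def sigma (k j : ℕ) : Equiv.Perm (G × Bool) where
  toFun p := (FreeGroup.of j * p.1, xor p.2 (decide (j = k ∧ p.1 = (FreeGroup.of k)⁻¹)))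
  invFun p := ((FreeGroup.of j)⁻¹ * p.1, xor p.2 (decide (j = k ∧ p.1 = 1)))
  left_inv := by
    rintro ⟨g, s⟩
    have h : (j = k ∧ FreeGroup.of j * g = 1) ↔ (j = k ∧ g = (FreeGroup.of k)⁻¹) := by
      constructor
      · rintro ⟨rfl, h⟩
        exact ⟨rfl, eq_inv_of_mul_eq_one_right h⟩
      · rintro ⟨rfl, h⟩
        exact ⟨rfl, by rw [h, mul_inv_cancel]⟩
    simp [h]
  right_inv := by
    rintro ⟨g, s⟩
    have h : (j = k ∧ (FreeGroup.of j)⁻¹ * g = (FreeGroup.of k)⁻¹) ↔ (j = k ∧ g = 1) := by
      constructor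
      · rintro ⟨rfl, h⟩
        refine ⟨rfl, ?_⟩
        have := congrArg (fun x => FreeGroup.of j * x) h
        simpa using this
      · rintro ⟨rfl, h⟩
        exact ⟨rfl, by rw [h, mul_one]⟩
    simp [h]

/-- The action of `G` on `G × Bool` given by `sigma k`. -/
noncomputable def rho (k : ℕ) : G →* Equiv.Perm (G × Bool) := FreeGroup.lift (sigma k)

/-- The side of the edge at `1` labelled `k` on which `w` lies. -/
noncomputable def side (k : ℕ) (w : G) : Bool := (rho k w (1, false)).2

lemma rho_of (k j : ℕ) : rho k (FreeGroup.of j) = sigma k j := by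
  simp [rho]

lemma rho_fst (k : ℕ) (w : G) : ∀ p : G × Bool, (rho k w p).1 = w * p.1 := by
  induction w using FreeGroup.induction_on with
  | C1 => intro p; simp
  | of j =>
    intro p
    change (rho k (FreeGroup.of j) p).1 = FreeGroup.of j * p.1
    rw [rho_of]; rfl
  | inv_of j h =>
    intro p
    change (rho k (FreeGroup.of j)⁻¹ p).1 = (FreeGroup.of j)⁻¹ * p.1
    rw [map_inv, rho_of]
    rfl
  | mul x y hx hy =>
    intro p
    rw [map_mul, Equiv.Perm.mul_apply, hx, hy, mul_assoc]

lemma rho_one (k : ℕ) (w : G) : rho k w (1, false) = (w, side k w) := by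
  apply Prod.ext
  · rw [rho_fst]; simp
  · rfl

lemma side_of_mul (k j : ℕ) (w : G) :
    side k (FreeGroup.of j * w) =
      xor (side k w) (decide (j = k ∧ w = (FreeGroup.of k)⁻¹)) := by
  have : rho k (FreeGroup.of j * w) (1, false) = sigma k j (w, side k w) := by
    rw [map_mul, Equiv.Perm.mul_apply, rho_one, rho_of]
  rw [side, this]
  rfl

lemma side_one (k : ℕ) : side k 1 = false := by
  simp [side]

lemma side_of_inv (k : ℕ) : side k (FreeGroup.of k)⁻¹ = true := by
  have h := side_of_mul k k (FreeGroup.of k)⁻¹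
  rw [mul_inv_cancel, side_one] at h
  simpa using h.symm

lemma side_of_inv_mul_ne {k j : ℕ} (hjk : j ≠ k) (w : G) :
    side k ((FreeGroup.of j)⁻¹ * w) = side k w := by
  have h := side_of_mul k j ((FreeGroup.of j)⁻¹ * w)
  rw [mul_inv_cancel_left] at h
  simpa [hjk] using h.symm

lemma side_of_inv_mul {k : ℕ} {w : G} (hw : w ≠ 1) :
    side k ((FreeGroup.of k)⁻¹ * w) = side k w := by
  have h := side_of_mul k k ((FreeGroup.of k)⁻¹ * w)
  rw [mul_inv_cancel_left] at h
  have h2 : ¬ ((FreeGroup.of k)⁻¹ * w = (FreeGroup.of k)⁻¹) := by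
    intro h3
    apply hw
    have := congrArg (fun x => FreeGroup.of k * x) h3
    simpa using this
  simpa [h2] using h.symm

lemma side_closure {k : ℕ} {h : G} (hh : h ∈ Subgroup.closure (FreeGroup.of '' {j : ℕ | j ≠ k})) :
    ∀ w : G, side k (h * w) = side k w := by
  induction hh using Subgroup.closure_induction with
  | mem x hx =>
    obtain ⟨j, hj, rfl⟩ := hx
    intro w
    have := side_of_mul k j w
    simpa [show j ≠ k from hj] using this
  | one => intro w; simp
  | mul x y _ _ hx hy => intro w; rw [mul_assoc, hx, hy]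
  | inv x _ hx =>
    intro w
    have := hx (x⁻¹ * w)
    rw [mul_inv_cancel_left] at this
    exact this.symm

/-- The subgroup generated by the generators with index below `k`. -/
def below (k : ℕ) : Subgroup G := Subgroup.closure (FreeGroup.of '' {j : ℕ | j < k})

lemma below_mono {k l : ℕ} (h : k ≤ l) : below k ≤ below l := by
  apply Subgroup.closure_mono
  apply Set.image_mono
  intro j hj
  exact lt_of_lt_of_le hj h

lemma side_below {k k' : ℕ} (hk : k' ≤ k) {h : G} (hh : h ∈ below k') (w : G) :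
    side k (h * w) = side k w := by
  apply side_closure
  have h2 : below k' ≤ Subgroup.closure (FreeGroup.of '' {j : ℕ | j ≠ k}) := by
    apply Subgroup.closure_mono
    apply Set.image_mono
    intro j hj
    have : j < k' := hj
    exact (lt_of_lt_of_le this hk).ne
  exact h2 hh

lemma exists_below (g : G) : ∃ b : ℕ, g ∈ below b := by
  induction g using FreeGroup.induction_on with
  | C1 => exact ⟨0, one_mem _⟩
  | of j =>
    refine ⟨j + 1, ?_⟩
    apply Subgroup.subset_closure
    exact ⟨j, Nat.lt_succ_self j, rfl⟩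
  | inv_of j h =>
    obtain ⟨b, hb⟩ := h
    exact ⟨b, inv_mem hb⟩
  | mul x y hx hy =>
    obtain ⟨b, hb⟩ := hx
    obtain ⟨c, hc⟩ := hy
    exact ⟨max b c, mul_mem (below_mono (le_max_left _ _) hb) (below_mono (le_max_right _ _) hc)⟩

lemma exists_below_finset (F : Finset G) : ∃ b : ℕ, ∀ g ∈ F, g ∈ below b := by
  classical
  induction F using Finset.induction_on with
  | empty => exact ⟨0, by simp⟩
  | insert a s _ ih =>
    obtain ⟨b, hb⟩ := ih
    obtain ⟨c, hc⟩ := exists_below a
    refine ⟨max b c, ?_⟩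
    intro g hg
    rcases Finset.mem_insert.1 hg with rfl | hg
    · exact below_mono (le_max_right _ _) hc
    · exact below_mono (le_max_left _ _) (hb g hg)

section Main

variable {n : ℕ}

/-- The admissible finite sets of forbidden (position, colour) pairs. -/
def Adm (P : Finset (G × Fin n)) : Prop :=
  (P.card ≤ n ∧ ∃ j : Fin n, ∀ p ∈ P, p.2 ≠ j) ∨
  (∃ a : Fin n, ∃ q : G × Fin n, (P.erase q).card ≤ n ∧ ∀ p ∈ P.erase q, p.2 = a)

lemma Adm.mono {P Q : Finset (G × Fin n)} (h : Adm Q) (hPQ : P ⊆ Q) : Adm P := by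
  rcases h with ⟨h1, j, hj⟩ | ⟨a, q, h1, h2⟩
  · exact Or.inl ⟨(Finset.card_le_card hPQ).trans h1, j, fun p hp => hj p (hPQ hp)⟩
  · have h3 : P.erase q ⊆ Q.erase q := Finset.erase_subset_erase q hPQ
    exact Or.inr ⟨a, q, (Finset.card_le_card h3).trans h1, fun p hp => h2 p (h3 hp)⟩

lemma exists_ne_three (hn : 4 ≤ n) (a b c : Fin n) : ∃ j : Fin n, j ≠ a ∧ j ≠ b ∧ j ≠ c := by
  classical
  have h : ({a, b, c} : Finset (Fin n)).card < Fintype.card (Fin n) := by
    rw [Fintype.card_fin]
    exact lt_of_le_of_lt Finset.card_le_three (by omega)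
  obtain ⟨j, hj⟩ : ∃ j : Fin n, j ∉ ({a, b, c} : Finset (Fin n)) := by
    by_contra hcon
    push Not at hcon
    have : ({a, b, c} : Finset (Fin n)) = Finset.univ := Finset.eq_univ_iff_forall.2 hcon
    rw [this, Finset.card_univ] at h
    exact lt_irrefl _ h
  refine ⟨j, ?_⟩
  simpa only [Finset.mem_insert, Finset.mem_singleton, not_or] using hj

lemma Adm.free (hn : 4 ≤ n) {P : Finset (G × Fin n)} (h : Adm P) (g : G) :
    ∃ j : Fin n, (g, j) ∉ P := by
  rcases h with ⟨_, j, hj⟩ | ⟨a, q, _, h2⟩
  · exact ⟨j, fun h => hj _ h rfl⟩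
  · obtain ⟨j, hja, hjq, _⟩ := exists_ne_three hn a q.2 a
    refine ⟨j, fun hmem => ?_⟩
    by_cases hq : (g, j) = q
    · exact hjq (by rw [← hq])
    · exact hja (h2 _ (Finset.mem_erase.2 ⟨hq, hmem⟩))

end Main

end Pool.Agent.Helper9_Protasov
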