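import Pool.Agent.Helper9_Protasov.Basic

set_option autoImplicit false
open Pointwise

namespace Pool.Agent.Helper9_Protasov

variable {n : ℕ}

open Classical in
lemma adm_split (hn : 4 ≤ n) {P Q : Finset (G × Fin n)} (hd : Disjoint P Q)
    (h : Adm (P ∪ Q)) (a : G × Fin n) (i : Fin n) (B : Finset (G × Fin n)) (hB : B.card ≤ n)
    (hBi : ∀ p ∈ B, p.2 = i) :
    Adm (insert a P) ∨ Adm (Q ∪ B) := by
  by_cases hQ : Q.card ≤ 1
  · right
    right
    have : Nonempty (G × Fin n) := ⟨a⟩
    rcases Finset.card_le_one_iff_subset_singleton.1 hQ with ⟨q, hq⟩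
    refine ⟨i, q, ?_⟩
    have hsub : (Q ∪ B).erase q ⊆ B := by
      intro p hp
      rw [Finset.mem_erase, Finset.mem_union] at hp
      rcases hp.2 with h1 | h1
      · exact absurd (Finset.mem_singleton.1 (hq h1)) hp.1
      · exact h1
    exact ⟨(Finset.card_le_card hsub).trans hB, fun p hp => hBi p (hsub hp)⟩
  · push Not at hQ
    left
    left
    have hcard : (P ∪ Q).card = P.card + Q.card := Finset.card_union_of_disjoint hd
    have hins : (insert a P).card ≤ P.card + 1 := Finset.card_insert_le a P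
    rcases h with ⟨h1, j, hj⟩ | ⟨b, q, h1, h2⟩
    · refine ⟨by omega, ?_⟩
      by_contra hcon
      push Not at hcon

      have h3 : (Finset.univ : Finset (Fin n)) ⊆ (insert a P).image Prod.snd := by
        intro k _
        obtain ⟨p, hp, hpk⟩ := hcon k
        exact Finset.mem_image.2 ⟨p, hp, hpk⟩
      have h4 := (Finset.card_le_card h3).trans Finset.card_image_le
      rw [Finset.card_univ, Fintype.card_fin] at h4
      omega
    · have h5 : (P ∪ Q).card ≤ n + 1 := by
        have := Finset.pred_card_le_card_erase (s := P ∪ Q) (a := q)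
        omega
      refine ⟨by omega, ?_⟩
      obtain ⟨j, hj1, hj2, hj3⟩ := exists_ne_three hn a.2 b q.2
      refine ⟨j, ?_⟩
      intro p hp
      rcases Finset.mem_insert.1 hp with rfl | hp
      · exact hj1.symm
      · by_cases hpq : p = q
        · rw [hpq]; exact hj3.symm
        · rw [h2 p (Finset.mem_erase.2 ⟨hpq, Finset.mem_union_left _ hp⟩)]
          exact hj2.symm

/-- The colouring `c` meets the requirement with label `k` at the position `g`. -/
def Meets (F : ℕ → Finset G) (col : ℕ → Fin n) (c : G → Fin n) (e : ℕ × G) : Prop :=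
  ∀ f ∈ F e.1, ¬ (c ((FreeGroup.of e.1)⁻¹ * e.2) = col e.1 ∧ c (f⁻¹ * e.2) = col e.1)

open Classical in
theorem exists_coloring (hn : 4 ≤ n) (F : ℕ → Finset G) (col : ℕ → Fin n)
    (hF : ∀ k, ∀ f ∈ F k, f ∈ below k) (hcard : ∀ k, (F k).card ≤ n)
    (E : Finset (ℕ × G)) :
    ∀ P : Finset (G × Fin n), Adm P →
      ∃ c : G → Fin n, (∀ e ∈ E, Meets F col c e) ∧ ∀ p ∈ P, c p.1 ≠ p.2 := by
  induction E using Finset.induction_on_max_value (fun e : ℕ × G => e.1) with
  | empty =>
    intro P hP
    choose c hc using fun g => Adm.free hn hP g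
    refine ⟨c, by simp, ?_⟩
    rintro ⟨g, j⟩ hp h
    have h' : c g = j := h
    exact hc g (by rw [h']; exact hp)
  | insert e0 E' he0 hmax ih =>
    obtain ⟨k, g0⟩ := e0
    intro P hP
    set Pm := P.filter (fun p => side k (p.1 * g0⁻¹) = true) with hPm
    set Pp := P.filter (fun p => ¬ side k (p.1 * g0⁻¹) = true) with hPp
    have hunion : Pm ∪ Pp = P := Finset.filter_union_filter_not_eq _ P
    have hdisj : Disjoint Pm Pp := Finset.disjoint_filter_filter_not _ _ _
    set B := (F k).image (fun f => ((f⁻¹ * g0, col k) : G × Fin n)) with hB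
    have hBcard : B.card ≤ n := Finset.card_image_le.trans (hcard k)
    have hBi : ∀ p ∈ B, p.2 = col k := by
      intro p hp
      obtain ⟨f, _, rfl⟩ := Finset.mem_image.1 hp
      rfl
    set a : G × Fin n := ((FreeGroup.of k)⁻¹ * g0, col k) with ha
    -- gluing
    have glue : ∀ cm cp : G → Fin n, (∀ e ∈ E', Meets F col cm e) → (∀ e ∈ E', Meets F col cp e) →
        (∀ p ∈ Pm, cm p.1 ≠ p.2) → (∀ p ∈ Pp, cp p.1 ≠ p.2) →
        (∀ f ∈ F k, ¬ (cm ((FreeGroup.of k)⁻¹ * g0) = col k ∧ cp (f⁻¹ * g0) = col k)) →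
        ∃ c : G → Fin n, (∀ e ∈ insert (k, g0) E', Meets F col c e) ∧ ∀ p ∈ P, c p.1 ≠ p.2 := by
      intro cm cp hcm hcp hm hp hcross
      refine ⟨fun g => if side k (g * g0⁻¹) = true then cm g else cp g, ?_, ?_⟩
      · intro e he
        rcases Finset.mem_insert.1 he with rfl | he
        · intro f hf
          have h1 : side k ((FreeGroup.of k)⁻¹ * g0 * g0⁻¹) = true := by
            rw [mul_inv_cancel_right]; exact side_of_inv k
          have h2 : ¬ side k (f⁻¹ * g0 * g0⁻¹) = true := by
            rw [mul_inv_cancel_right]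
            have := side_below (le_refl k) (inv_mem (hF k f hf)) 1
            rw [mul_one, side_one] at this
            rw [this]; simp
          simp only [h1, h2, if_true]
          exact hcross f hf
        · obtain ⟨k', g'⟩ := e
          have hk' : k' ≤ k := hmax _ he
          intro f hf
          have hne : (k', g') ≠ (k, g0) := fun h => he0 (h ▸ he)
          have h1 : side k ((FreeGroup.of k')⁻¹ * g' * g0⁻¹) = side k (g' * g0⁻¹) := by
            rw [mul_assoc]
            by_cases hkk : k' = k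
            · subst hkk
              apply side_of_inv_mul
              intro h
              apply hne
              rw [mul_inv_eq_one] at h
              rw [h]
            · exact side_of_inv_mul_ne hkk _
          have h2 : side k (f⁻¹ * g' * g0⁻¹) = side k (g' * g0⁻¹) := by
            rw [mul_assoc]
            exact side_below hk' (inv_mem (hF k' f hf)) _
          dsimp only
          rw [h1, h2]
          by_cases hs : side k (g' * g0⁻¹) = true
          · simp only [hs, if_true]
            exact hcm _ he f hf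
          · simp only [hs]
            exact hcp _ he f hf
      · intro p hpP
        dsimp only
        by_cases hs : side k (p.1 * g0⁻¹) = true
        · simp only [hs, if_true]
          exact hm p (Finset.mem_filter.2 ⟨hpP, hs⟩)
        · rw [if_neg hs]
          exact hp p (Finset.mem_filter.2 ⟨hpP, hs⟩)
    have hAm : Adm Pm := hP.mono (Finset.filter_subset _ _)
    have hAp : Adm Pp := hP.mono (Finset.filter_subset _ _)
    rcases adm_split hn hdisj (hunion.symm ▸ hP) a (col k) B hBcard hBi with h | h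
    · obtain ⟨cm, hcm, hcm2⟩ := ih _ h
      obtain ⟨cp, hcp, hcp2⟩ := ih _ hAp
      refine glue cm cp hcm hcp (fun p hp => hcm2 p (Finset.mem_insert_of_mem hp)) hcp2 ?_
      intro f _ hcon
      exact hcm2 a (Finset.mem_insert_self _ _) hcon.1
    · obtain ⟨cm, hcm, hcm2⟩ := ih _ hAm
      obtain ⟨cp, hcp, hcp2⟩ := ih _ h
      refine glue cm cp hcm hcp hcm2 (fun p hp => hcp2 p (Finset.mem_union_left _ hp)) ?_
      intro f hf hcon
      exact hcp2 (f⁻¹ * g0, col k)
        (Finset.mem_union_right _ (Finset.mem_image.2 ⟨f, hf, rfl⟩)) hcon.2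

/-- A colouring meeting all the requirements at once (compactness). -/
theorem exists_coloring_all (hn : 4 ≤ n) (F : ℕ → Finset G) (col : ℕ → Fin n)
    (hF : ∀ k, ∀ f ∈ F k, f ∈ below k) (hcard : ∀ k, (F k).card ≤ n) :
    ∃ c : G → Fin n, ∀ e : ℕ × G, Meets F col c e := by
  classical
  have hadm : Adm (∅ : Finset (G × Fin n)) :=
    Or.inl ⟨by simp, ⟨⟨0, by omega⟩, by simp⟩⟩
  let idx : G → ℕ := Function.invFun FreeGroup.of
  have hidx : ∀ k, idx (FreeGroup.of k) = k :=
    Function.leftInverse_invFun FreeGroup.of_injective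
  let E : Finset G → Finset (ℕ × G) := fun s => (s ×ˢ s).image (fun p => (idx p.1, p.2))
  choose g hg _ using fun s => exists_coloring hn F col hF hcard (E s) ∅ hadm
  obtain ⟨c, hc⟩ := Finset.rado_selection (β := fun _ : G => Fin n) g
  refine ⟨c, ?_⟩
  rintro ⟨k, x⟩ f hf
  obtain ⟨t, hst, ht⟩ := hc {FreeGroup.of k, x, (FreeGroup.of k)⁻¹ * x, f⁻¹ * x}
  have hE : (k, x) ∈ E t := by
    refine Finset.mem_image.2 ⟨(FreeGroup.of k, x), ?_, ?_⟩
    · rw [Finset.mem_product]
      exact ⟨hst (by simp), hst (by simp)⟩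
    · simp only [hidx]
  have h1 := hg t (k, x) hE f hf
  dsimp only at h1 ⊢
  rw [ht ((FreeGroup.of k)⁻¹ * x) (by simp), ht (f⁻¹ * x) (by simp)]
  exact h1

/-- For every `n ≥ 4` the free group of countable rank has an `n`-colouring such that for every
set `F` of at most `n` elements and every colour `i` some translate of the colour class `i` is
disjoint from `F` times the colour class `i`. -/
theorem exists_good_coloring (hn : 4 ≤ n) :
    ∃ c : G → Fin n, ∀ (F : Finset G) (i : Fin n), F.card ≤ n →
      ∃ x : G, ∀ f ∈ F, ∀ g : G, ¬ (c (x⁻¹ * g) = i ∧ c (f⁻¹ * g) = i) := by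
  classical
  have : Nonempty (Finset G × Fin n) := ⟨(∅, ⟨0, by omega⟩)⟩
  obtain ⟨e, he⟩ := exists_surjective_nat (Finset G × Fin n)
  let ok : ℕ → Prop := fun k =>
    (∀ f ∈ (e (Nat.unpair k).1).1, f ∈ below k) ∧ (e (Nat.unpair k).1).1.card ≤ n
  let F : ℕ → Finset G := fun k => if ok k then (e (Nat.unpair k).1).1 else ∅
  let col : ℕ → Fin n := fun k => (e (Nat.unpair k).1).2
  have hF : ∀ k, ∀ f ∈ F k, f ∈ below k := by
    intro k f hf
    by_cases h : ok k
    · have h2 : F k = (e (Nat.unpair k).1).1 := if_pos h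
      rw [h2] at hf
      exact h.1 f hf
    · have h2 : F k = ∅ := if_neg h
      rw [h2] at hf
      simp at hf
  have hcard : ∀ k, (F k).card ≤ n := by
    intro k
    by_cases h : ok k
    · have h2 : F k = (e (Nat.unpair k).1).1 := if_pos h
      rw [h2]
      exact h.2
    · have h2 : F k = ∅ := if_neg h
      rw [h2]
      simp
  obtain ⟨c, hc⟩ := exists_coloring_all hn F col hF hcard
  refine ⟨c, ?_⟩
  intro F0 i hF0
  obtain ⟨t, ht⟩ := he (F0, i)
  obtain ⟨b, hb⟩ := exists_below_finset F0
  have hk1 : (Nat.unpair (Nat.pair t b)).1 = t := by simp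
  have hok : ok (Nat.pair t b) := by
    show (∀ f ∈ (e (Nat.unpair (Nat.pair t b)).1).1, f ∈ below (Nat.pair t b)) ∧
      (e (Nat.unpair (Nat.pair t b)).1).1.card ≤ n
    rw [hk1, ht]
    exact ⟨fun f hf => below_mono (Nat.right_le_pair t b) (hb f hf), hF0⟩
  have hFk : F (Nat.pair t b) = F0 := by
    have h2 : F (Nat.pair t b) = (e (Nat.unpair (Nat.pair t b)).1).1 := if_pos hok
    rw [h2, hk1, ht]
  have hcolk : col (Nat.pair t b) = i := by
    show (e (Nat.unpair (Nat.pair t b)).1).2 = i
    rw [hk1, ht]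
  refine ⟨FreeGroup.of (Nat.pair t b), ?_⟩
  intro f hf g
  have := hc (Nat.pair t b, g) f (by rw [hFk]; exact hf)
  rw [hcolk] at this
  exact this

/-- For every `n ≥ 4` some group has a partition into `n` cells such that no cell `A`
satisfies `G = F A A⁻¹` with `|F| ≤ n`. -/
theorem main (hn : 4 ≤ n) :
    ∃ A : Fin n → Set G, (⋃ i, A i) = Set.univ ∧ Pairwise (fun i j => Disjoint (A i) (A j)) ∧
      ∀ i : Fin n, ∀ F : Finset G, F.card ≤ n → (F : Set G) * A i * (A i)⁻¹ ≠ Set.univ := by
  obtain ⟨c, hc⟩ := exists_good_coloring hn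
  refine ⟨fun i => {g | c g = i}, ?_, ?_, ?_⟩
  · ext g
    simp
  · intro i j hij
    refine Set.disjoint_left.2 ?_
    intro g hgi hgj
    have h1 : c g = i := hgi
    have h2 : c g = j := hgj
    exact hij (h1.symm.trans h2)
  · intro i F hF hcov
    obtain ⟨x, hx⟩ := hc F i hF
    have hmem : x ∈ (F : Set G) * {g | c g = i} * ({g | c g = i})⁻¹ := by
      rw [hcov]; trivial
    rw [Set.mem_mul] at hmem
    obtain ⟨y, hy, b, hb, hyb⟩ := hmem
    rw [Set.mem_mul] at hy
    obtain ⟨f, hf, a, ha, hfa⟩ := hy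
    rw [Set.mem_inv] at hb
    have hf' : f ∈ F := hf
    refine hx f hf' (f * a) ⟨?_, ?_⟩
    · have : x⁻¹ * (f * a) = b⁻¹ := by
        rw [← hyb, hfa]; group
      rw [this]; exact hb
    · rw [inv_mul_cancel_left]; exact ha

end Pool.Agent.Helper9_Protasov
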